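import Pool.Agent.Y485.HS.Stm

/-!
Job HSS-COORD: coordinates for Newman's theorem. A ball around a point of the interior of the fixed
points whose boundary sphere contains limits of points which are not fixed; polar coordinates around
its centre, with a slowly growing function of the radius.
-/

set_option autoImplicit false
set_option linter.all false

open MeasureTheory Set Metric Filter Topology
open scoped ENNReal NNReal

namespace Pool.Agent.Y665.HS

open Pool.Agent.Y485.HS

/-! ### Polar coordinates -/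

theorem unit_diff {n : ℕ} {p q : E n} (hp : p ≠ 0) (hq : q ≠ 0) :
    ‖(1 / ‖p‖) • p - (1 / ‖q‖) • q‖ ≤ 2 * ‖p - q‖ / ‖p‖ := by
  have hp' : 0 < ‖p‖ := norm_pos_iff.2 hp
  have hq' : 0 < ‖q‖ := norm_pos_iff.2 hq
  have e : (1 / ‖p‖) • p - (1 / ‖q‖) • q = (1 / ‖p‖) • (p - q) + (1 / ‖p‖ - 1 / ‖q‖) • q := by
    module
  rw [e]
  refine (norm_add_le _ _).trans ?_
  rw [norm_smul, norm_smul, Real.norm_eq_abs, Real.norm_eq_abs,
    abs_of_pos (by positivity : 0 < 1 / ‖p‖)]
  have h1 : |1 / ‖p‖ - 1 / ‖q‖| * ‖q‖ = |‖q‖ - ‖p‖| / ‖p‖ := by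
    have e1 : 1 / ‖p‖ - 1 / ‖q‖ = (‖q‖ - ‖p‖) / (‖p‖ * ‖q‖) := by
      field_simp
    rw [e1, abs_div, abs_of_pos (mul_pos hp' hq')]
    field_simp
  have h2 : |‖q‖ - ‖p‖| ≤ ‖p - q‖ := by
    rw [← norm_neg (p - q), neg_sub]
    exact abs_norm_sub_norm_le q p
  have h3 : |‖q‖ - ‖p‖| / ‖p‖ ≤ ‖p - q‖ / ‖p‖ := div_le_div_of_nonneg_right h2 hp'.le
  rw [h1]
  calc 1 / ‖p‖ * ‖p - q‖ + |‖q‖ - ‖p‖| / ‖p‖ ≤ 1 / ‖p‖ * ‖p - q‖ + ‖p - q‖ / ‖p‖ := by linarith
    _ = _ := by ring

theorem polar {n : ℕ} {p q : E n} (hp : p ≠ 0) (hq : q ≠ 0) (s t : ℝ) (ht : 0 ≤ t) :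
    ‖(s / ‖p‖) • p - (t / ‖q‖) • q‖ ≤ |s - t| + t * (2 * ‖p - q‖ / ‖p‖) := by
  have hp' : 0 < ‖p‖ := norm_pos_iff.2 hp
  have e : (s / ‖p‖) • p - (t / ‖q‖) • q =
      (s - t) • ((1 / ‖p‖) • p) + t • ((1 / ‖p‖) • p - (1 / ‖q‖) • q) := by
    module
  rw [e]
  refine (norm_add_le _ _).trans ?_
  rw [norm_smul, norm_smul, norm_smul, Real.norm_eq_abs, Real.norm_eq_abs, Real.norm_eq_abs,
    abs_of_pos (by positivity : 0 < 1 / ‖p‖), abs_of_nonneg ht, one_div_mul_cancel hp'.ne', mul_one]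
  have := mul_le_mul_of_nonneg_left (unit_diff hp hq) ht
  linarith

theorem norm_pol {n : ℕ} {p : E n} (hp : p ≠ 0) {s : ℝ} (hs : 0 ≤ s) : ‖(s / ‖p‖) • p‖ = s := by
  have hp' : 0 < ‖p‖ := norm_pos_iff.2 hp
  rw [norm_smul, Real.norm_eq_abs, abs_of_nonneg (by positivity), div_mul_cancel₀ _ hp'.ne']

/-! ### A slowly growing function -/

noncomputable def cl (u v r : ℝ) : ℝ := max (min 1 ((r - u) / (v - u))) 0

theorem cl_nn (u v r : ℝ) : 0 ≤ cl u v r := le_max_right _ _
theorem cl_le (u v r : ℝ) : cl u v r ≤ 1 := max_le (min_le_left _ _) zero_le_one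
theorem cl_mono {u v : ℝ} (h : u < v) {r r' : ℝ} (hr : r ≤ r') : cl u v r ≤ cl u v r' := by
  unfold cl
  have h1 : 0 < v - u := sub_pos.2 h
  refine max_le_max (min_le_min le_rfl ?_) le_rfl
  exact div_le_div_of_nonneg_right (by linarith) h1.le
theorem cl_zero {u v : ℝ} (h : u < v) {r : ℝ} (hr : r ≤ u) : cl u v r = 0 := by
  unfold cl
  have h1 : 0 < v - u := sub_pos.2 h
  refine max_eq_right ((min_le_right _ _).trans ?_)
  exact div_nonpos_of_nonpos_of_nonneg (by linarith) h1.le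
theorem cl_one {u v : ℝ} (h : u < v) {r : ℝ} (hr : v ≤ r) : cl u v r = 1 := by
  unfold cl
  have h1 : 0 < v - u := sub_pos.2 h
  have h2 : 1 ≤ (r - u) / (v - u) := by
    rw [le_div_iff₀ h1]
    linarith
  rw [min_eq_left h2]
  exact max_eq_left zero_le_one
theorem cl_lip {u v : ℝ} (h : u < v) (r r' : ℝ) : |cl u v r - cl u v r'| ≤ 1 / (v - u) * |r - r'| := by
  unfold cl
  have h1 : 0 < v - u := sub_pos.2 h
  refine (abs_max_sub_max_le_abs _ _ _).trans ?_
  refine (abs_min_sub_min_le_max _ _ _ _).trans ?_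
  rw [sub_self, abs_zero, ← sub_div, abs_div, abs_of_pos h1]
  refine max_le (by positivity) (le_of_eq ?_)
  rw [show r - u - (r' - u) = r - r' by ring]
  ring

theorem fex (η : ℕ → ℝ) (hp : ∀ i, 0 < η i) (hh : ∀ i, η (i + 1) ≤ η i / 2) (R rw' : ℝ)
    (h1 : R < rw') (h2 : rw' ≤ R + η 100) :
    ∃ (N : ℕ) (f : ℝ → ℝ) (K : ℝ), 0 ≤ K ∧ (∀ r r', r ≤ r' → (r' - r) / 20 ≤ f r' - f r) ∧
      (∀ r r', |f r - f r'| ≤ K * |r - r'|) ∧ f rw' = 16 ∧ f (R + η N) ≤ 11 ∧
      21 ≤ f (R + η 0) ∧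
      (∀ r r', (∀ i, r ≤ R + η (i + 2) → r' ≤ R + η (i + 1)) →
        f r' ≤ f r + 1 / 10 + |r' - r| / 20) := by
  have hlt : ∀ i, R + η (i + 1) < R + η i := fun i => by linarith [hp i, hh i]
  have hanti : Antitone η := antitone_nat_of_succ_le fun i => by linarith [hp i, hh i]
  obtain ⟨M, hM⟩ : ∃ M, η M ≤ rw' - R := by
    have hg : ∀ i, η i ≤ η 0 * (1 / 2) ^ i := by
      intro i
      induction i with
      | zero => simp
      | succ i ih =>
        rw [pow_succ]
        have := hh i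
        linarith
    have ht : Tendsto (fun i : ℕ => η 0 * (1 / 2 : ℝ) ^ i) atTop (𝓝 (η 0 * 0)) :=
      (tendsto_pow_atTop_nhds_zero_of_lt_one (by norm_num) (by norm_num)).const_mul _
    rw [mul_zero] at ht
    obtain ⟨M, hM⟩ := ((tendsto_order.1 ht).2 (rw' - R) (by linarith)).exists
    exact ⟨M, (hg M).trans hM.le⟩
  let c : ℕ → ℝ → ℝ := fun i r => cl (R + η (i + 1)) (R + η i) r
  let N := M + 100
  let S : ℝ → ℝ := fun r => ∑ i ∈ Finset.range N, c i r
  have c0 : ∀ i r, 0 ≤ c i r := fun i r => cl_nn _ _ _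
  have c1 : ∀ i r, c i r ≤ 1 := fun i r => cl_le _ _ _
  have Smono : ∀ r r', r ≤ r' → S r ≤ S r' := fun r r' h =>
    Finset.sum_le_sum fun i _ => cl_mono (hlt i) h
  have hSlo : 100 ≤ S rw' := by
    show (100 : ℝ) ≤ ∑ i ∈ Finset.range (M + 100), c i rw'
    rw [Finset.sum_range_add]
    have e1 : ∑ x ∈ Finset.range 100, c (M + x) rw' = 100 := by
      rw [Finset.sum_congr rfl (g := fun _ => (1 : ℝ)) fun x _ => ?_]
      · simp
      · refine cl_one (hlt _) ?_
        have := hanti (show M ≤ M + x by omega)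
        linarith
    rw [e1]
    have := Finset.sum_nonneg (s := Finset.range M) fun i _ => c0 i rw'
    linarith
  have hShi : S rw' ≤ N - 100 := by
    have e0 : N = 100 + M := by
      show M + 100 = 100 + M
      omega
    have e2 : S rw' = ∑ i ∈ Finset.range (100 + M), c i rw' := by
      show ∑ i ∈ Finset.range N, c i rw' = _
      rw [e0]
    rw [e2, Finset.sum_range_add, e0]
    have e1 : ∑ x ∈ Finset.range 100, c x rw' = 0 := by
      refine Finset.sum_eq_zero fun x hx => cl_zero (hlt _) ?_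
      have hx' := Finset.mem_range.1 hx
      have := hanti (show x + 1 ≤ 100 by omega)
      linarith
    have e3 : ∑ x ∈ Finset.range M, c (100 + x) rw' ≤ ∑ x ∈ Finset.range M, (1 : ℝ) :=
      Finset.sum_le_sum fun i _ => c1 _ _
    rw [e1, zero_add]
    refine e3.trans ?_
    simp
  have hS0 : S (R + η N) = 0 := by
    refine Finset.sum_eq_zero fun x hx => cl_zero (hlt _) ?_
    have hx' := Finset.mem_range.1 hx
    have := hanti (show x + 1 ≤ N by omega)
    linarith
  have hS1 : S (R + η 0) = N := by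
    show ∑ i ∈ Finset.range N, c i (R + η 0) = N
    rw [Finset.sum_congr rfl (g := fun _ => (1 : ℝ)) fun x _ => ?_]
    · simp
    · refine cl_one (hlt _) ?_
      have := hanti (show 0 ≤ x by omega)
      linarith
  refine ⟨N, fun r => 16 + (S r - S rw') / 20 + (r - rw') / 20,
    (∑ i ∈ Finset.range N, 1 / ((R + η i) - (R + η (i + 1)))) + 1, ?_, ?_, ?_, ?_, ?_, ?_, ?_⟩
  · refine add_nonneg (Finset.sum_nonneg fun i _ => ?_) zero_le_one
    have := hlt i
    exact div_nonneg zero_le_one (by linarith)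
  · intro r r' h
    have := Smono r r' h
    show (r' - r) / 20 ≤ (16 + (S r' - S rw') / 20 + (r' - rw') / 20) -
      (16 + (S r - S rw') / 20 + (r - rw') / 20)
    linarith
  · intro r r'
    have h3 : |S r - S r'| ≤ (∑ i ∈ Finset.range N, 1 / ((R + η i) - (R + η (i + 1)))) *
        |r - r'| := by
      show |(∑ i ∈ Finset.range N, c i r) - ∑ i ∈ Finset.range N, c i r'| ≤ _
      rw [← Finset.sum_sub_distrib, Finset.sum_mul]
      refine (Finset.abs_sum_le_sum_abs _ _).trans (Finset.sum_le_sum fun i _ => ?_)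
      exact cl_lip (hlt i) r r'
    show |(16 + (S r - S rw') / 20 + (r - rw') / 20) -
      (16 + (S r' - S rw') / 20 + (r' - rw') / 20)| ≤ _
    have e : (16 + (S r - S rw') / 20 + (r - rw') / 20) -
      (16 + (S r' - S rw') / 20 + (r' - rw') / 20) = (S r - S r') / 20 + (r - r') / 20 := by ring
    rw [e]
    refine (abs_add_le _ _).trans ?_
    rw [abs_div, abs_div, abs_of_pos (by norm_num : (0 : ℝ) < 20), add_mul, one_mul]
    have h4 := abs_nonneg (S r - S r')
    have h5 := abs_nonneg (r - r')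
    linarith
  · show 16 + (S rw' - S rw') / 20 + (rw' - rw') / 20 = 16
    ring
  · show 16 + (S (R + η N) - S rw') / 20 + (R + η N - rw') / 20 ≤ 11
    have := hanti (show M ≤ N by omega)
    rw [hS0]
    linarith
  · show 21 ≤ 16 + (S (R + η 0) - S rw') / 20 + (R + η 0 - rw') / 20
    have := hanti (show 0 ≤ 100 by omega)
    rw [hS1]
    linarith
  · intro r r' h
    have h3 : S r' ≤ S r + 2 := by
      have h4 : S r' ≤ ∑ i ∈ Finset.range N, c (i + 2) r := by
        refine Finset.sum_le_sum fun i _ => ?_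
        by_cases hr : r ≤ R + η (i + 2)
        · have h5 : c i r' = 0 := cl_zero (hlt i) (h i hr)
          rw [h5]
          exact c0 _ _
        · have h5 : c (i + 2) r = 1 := cl_one (hlt (i + 2)) (not_le.1 hr).le
          rw [h5]
          exact c1 _ _
      have h6 : ∑ i ∈ Finset.range N, c (i + 2) r ≤ S r + 2 := by
        have h7 : ∑ i ∈ Finset.range (2 + N), c i r = ∑ i ∈ Finset.range 2, c i r +
            ∑ i ∈ Finset.range N, c (2 + i) r := Finset.sum_range_add _ _ _
        have h8 : ∑ i ∈ Finset.range (N + 2), c i r = ∑ i ∈ Finset.range N, c i r +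
            ∑ i ∈ Finset.range 2, c (N + i) r := Finset.sum_range_add _ _ _
        have h9 : ∑ i ∈ Finset.range 2, c (N + i) r ≤ ∑ i ∈ Finset.range 2, (1 : ℝ) :=
          Finset.sum_le_sum fun i _ => c1 _ _
        have h10 := Finset.sum_nonneg (s := Finset.range 2) fun i _ => c0 i r
        have h11 : ∑ i ∈ Finset.range N, c (i + 2) r = ∑ i ∈ Finset.range N, c (2 + i) r :=
          Finset.sum_congr rfl fun i _ => by rw [Nat.add_comm]
        rw [Nat.add_comm 2 N] at h7
        have h12 : ∑ i ∈ Finset.range 2, (1 : ℝ) = 2 := by simp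
        show _ ≤ ∑ i ∈ Finset.range N, c i r + 2
        linarith
      exact h4.trans h6
    show 16 + (S r' - S rw') / 20 + (r' - rw') / 20 ≤
      16 + (S r - S rw') / 20 + (r - rw') / 20 + 1 / 10 + |r' - r| / 20
    have := le_abs_self (r' - r)
    linarith

theorem exists_seq (δ : ℝ → ℝ) (hδ : ∀ ε, 0 < ε → 0 < δ ε) (η0 : ℝ) (h0 : 0 < η0) :
    ∃ η : ℕ → ℝ, η 0 = η0 ∧ (∀ i, 0 < η i) ∧ (∀ i, η (i + 1) ≤ η i / 2) ∧
      (∀ i, η (i + 1) ≤ δ (η i / 2)) := by
  let η : ℕ → ℝ := fun i => Nat.rec η0 (fun _ e => min (e / 2) (δ (e / 2))) i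
  have hs : ∀ i, η (i + 1) = min (η i / 2) (δ (η i / 2)) := fun i => rfl
  have hp : ∀ i, 0 < η i := by
    intro i
    induction i with
    | zero => exact h0
    | succ i ih =>
      rw [hs]
      exact lt_min (by positivity) (hδ _ (by positivity))
  exact ⟨η, rfl, hp, fun i => (hs i).le.trans (min_le_left _ _),
    fun i => (hs i).le.trans (min_le_right _ _)⟩

/-! ### The coordinates -/

theorem coord : S_COORD := by
  classical
  intro n hn K _ _ _ _ T z ρ hρ hc h1 hm a ha x1 hx1 hfa hx1n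
  set A : Set (E n) := {x | ∀ k, T k x = x} with hA
  have haV : a ∈ interior A := mem_interior_iff_mem_nhds.2 hfa
  have hx1A : x1 ∈ Aᶜ := fun h => by
    obtain ⟨k, hk⟩ := hx1n
    exact hk (h k)
  have hAc : Aᶜ.Nonempty := ⟨x1, hx1A⟩
  -- a point of the frontier
  obtain ⟨b, hbz, hb1, hb2⟩ : ∃ b, b ∈ ball z ρ ∧ b ∈ closure (interior A) ∧ b ∉ interior A := by
    by_contra hcon
    push Not at hcon
    have := (convex_ball z ρ).isPreconnected.subset_of_closure_inter_subset isOpen_interior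
      ⟨a, ha, haV⟩ (fun x hx => hcon x hx.2 hx.1)
    exact hx1A (interior_subset (this hx1))
  obtain ⟨r0, hr0, hball⟩ := Metric.isOpen_iff.1 (isOpen_ball (x := z) (ε := ρ)) b hbz
  obtain ⟨a', ha'V, ha'b⟩ := Metric.mem_closure_iff.1 hb1 (r0 / 4) (by positivity)
  set R := infDist a' Aᶜ with hR
  have hR0 : 0 < R := by
    rcases (infDist_nonneg (x := a') (s := Aᶜ)).lt_or_eq with h | h
    · exact h
    · exfalso
      have h2 := (mem_closure_iff_infDist_zero hAc).2 h.symm
      rw [closure_compl] at h2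
      exact h2 ha'V
  have hRb : R < r0 / 4 := by
    have h2 : b ∈ closure Aᶜ := by
      rw [closure_compl]
      exact hb2
    have h3 := infDist_le_dist_of_mem (x := a') h2
    rw [infDist_closure, dist_comm] at h3
    exact h3.trans_lt ha'b
  have hin : ∀ x, dist x a' < 3 / 4 * r0 → x ∈ ball z ρ := by
    intro x hx
    refine hball (mem_ball.2 ?_)
    have h2 := dist_triangle x a' b
    rw [dist_comm b a'] at ha'b
    linarith
  have hin' : ∀ x, dist x a' < 3 / 4 * r0 → x ∈ closedBall z ρ := fun x hx =>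
    ball_subset_closedBall (hin x hx)
  have hTc : ∀ k, ContinuousOn (T k) (closedBall z ρ) := fun k =>
    hc.comp (f := fun x => (k, x)) (by fun_prop) fun x hx => ⟨mem_univ _, hx⟩
  -- the closed ball of radius R consists of fixed points
  have hfix : ∀ x, dist x a' ≤ R → ∀ k, T k x = x := by
    intro x hx k
    have hcl : IsClosed (closedBall z ρ ∩ {y | T k y = y}) := by
      have h2 : ContinuousOn (fun y => dist (T k y) y) (closedBall z ρ) :=
        fun y hy => Filter.Tendsto.dist (hTc k y hy) continuousWithinAt_id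
      have h3 := h2.preimage_isClosed_of_isClosed isClosed_closedBall
        (isClosed_singleton (x := (0 : ℝ)))
      have e : closedBall z ρ ∩ {y | T k y = y} =
          closedBall z ρ ∩ (fun y => dist (T k y) y) ⁻¹' {0} := by
        ext y
        simp
      rw [e]
      exact h3
    have h2 : ball a' R ⊆ closedBall z ρ ∩ {y | T k y = y} := by
      intro y hy
      have h3 := mem_ball.1 hy
      refine ⟨hin' y (by linarith), ?_⟩
      by_contra h4
      have h5 : y ∈ Aᶜ := fun h => h4 (h k)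
      have h6 := infDist_le_dist_of_mem (x := a') h5
      rw [dist_comm] at h6
      linarith
    have h3 := closure_minimal h2 hcl
    rw [closure_ball a' hR0.ne'] at h3
    exact (h3 (mem_closedBall.2 hx)).2
  -- small displacement near the sphere
  have hU : ∀ ε : ℝ, 0 < ε → ∃ δ : ℝ, 0 < δ ∧ ∀ x, dist x a' ≤ R + δ → ∀ k,
      dist (T k x) x ≤ ε := by
    intro ε hε
    let C : Set (E n) := closedBall a' (R + r0 / 8)
    have hCz : C ⊆ closedBall z ρ := fun x hx => hin' x (by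
      have := mem_closedBall.1 hx
      linarith)
    let Z : Set (K × E n) := (univ ×ˢ C) ∩ (fun q : K × E n => dist (T q.1 q.2) q.2) ⁻¹' (Ici ε)
    have hZc : IsClosed Z := by
      refine ContinuousOn.preimage_isClosed_of_isClosed ?_
        (isClosed_univ.prod isClosed_closedBall) isClosed_Ici
      exact fun q hq => Filter.Tendsto.dist (hc.mono (prod_mono le_rfl hCz) q hq)
        (continuousOn_snd q hq)
    have hZk : IsCompact Z :=
      (isCompact_univ.prod (isCompact_closedBall a' (R + r0 / 8))).of_isClosed_subset hZc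
        inter_subset_left
    rcases Z.eq_empty_or_nonempty with hZ | hZ
    · refine ⟨r0 / 8, by positivity, fun x hx k => ?_⟩
      by_contra h2
      have h3 : (k, x) ∈ Z := ⟨⟨mem_univ _, mem_closedBall.2 hx⟩, (not_le.1 h2).le⟩
      rw [hZ] at h3
      exact h3
    · obtain ⟨q0, hq0, hq⟩ := hZk.exists_isMinOn hZ
        (f := fun q : K × E n => dist q.2 a') (by fun_prop)
      have h4 : R < dist q0.2 a' := by
        by_contra h5
        have h6 := hfix q0.2 (not_lt.1 h5) q0.1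
        have h7 : ε ≤ dist (T q0.1 q0.2) q0.2 := hq0.2
        rw [h6, dist_self] at h7
        linarith
      refine ⟨min (r0 / 8) ((dist q0.2 a' - R) / 2), lt_min (by positivity) (by linarith),
        fun x hx k => ?_⟩
      by_contra h2
      have h5 := min_le_left (r0 / 8) ((dist q0.2 a' - R) / 2)
      have h6 := min_le_right (r0 / 8) ((dist q0.2 a' - R) / 2)
      have h3 : (k, x) ∈ Z := ⟨⟨mem_univ _, mem_closedBall.2 (by linarith)⟩, (not_le.1 h2).le⟩
      have h7 := hq h3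
      have h8 : dist q0.2 a' ≤ dist x a' := h7
      linarith
  choose! δ hδ0 hδ using hU
  -- parameters
  have he0 : 0 < min 1 (min (R / 1000) (r0 / 8)) := by positivity
  set ε0 : ℝ := min 1 (min (R / 1000) (r0 / 8)) with hε0
  have e1 : ε0 ≤ 1 := min_le_left _ _
  have e2 : ε0 ≤ R / 1000 := (min_le_right _ _).trans (min_le_left _ _)
  have e3 : ε0 ≤ r0 / 8 := (min_le_right _ _).trans (min_le_right _ _)
  have hη0 : 0 < min (δ ε0) (min 1 (r0 / 8)) := lt_min (hδ0 _ he0) (by positivity)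
  obtain ⟨η, q0, hp, hh, hd⟩ := exists_seq δ hδ0 _ hη0
  have q1 : η 0 ≤ δ ε0 := by rw [q0]; exact min_le_left _ _
  have q2 : η 0 ≤ 1 := by rw [q0]; exact (min_le_right _ _).trans (min_le_left _ _)
  have q3 : η 0 ≤ r0 / 8 := by rw [q0]; exact (min_le_right _ _).trans (min_le_right _ _)
  have hanti : Antitone η := antitone_nat_of_succ_le fun i => by linarith [hp i, hh i]
  have hstep : ∀ i x, dist x a' ≤ R + η (i + 1) → ∀ k, dist (T k x) a' ≤ R + η i := by
    intro i x hx k
    have h2 := hδ (η i / 2) (half_pos (hp i)) x (by linarith [hd i]) k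
    have h3 := dist_triangle (T k x) x a'
    linarith [hh i]
  have hdisp : ∀ x, dist x a' ≤ R + η 0 → ∀ k, dist (T k x) x ≤ ε0 := fun x hx k =>
    hδ ε0 he0 x (by linarith) k
  obtain ⟨w, hwA, hw⟩ := (infDist_lt_iff hAc).1
    (show infDist a' Aᶜ < R + η 100 by rw [← hR]; linarith [hp 100])
  have hw' : ∃ k, T k w ≠ w := by
    by_contra h
    push Not at h
    exact hwA h
  have hwR : R < dist w a' := by
    by_contra h
    obtain ⟨k, hk⟩ := hw'
    exact hk (hfix w (not_lt.1 h) k)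
  rw [dist_comm] at hw
  obtain ⟨N, f, L, hL0, hf1, hf2, hf3, hf4, hf5, hf6⟩ := fex η hp hh R (dist w a') hwR hw.le
  have hfs : ∀ r r', f r < f r' → r < r' := by
    intro r r' h
    by_contra h2
    have := hf1 r' r (not_lt.1 h2)
    have h3 := not_lt.1 h2
    linarith
  have hfc : Continuous f := by
    have : LipschitzWith (Real.toNNReal L) f := by
      refine LipschitzWith.of_dist_le_mul fun r r' => ?_
      rw [Real.coe_toNNReal _ hL0, Real.dist_eq, Real.dist_eq]
      exact hf2 r r'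
    exact this.continuous
  have hw0 : w - a' ≠ 0 := by
    intro h
    rw [dist_eq_norm, h, norm_zero] at hwR
    linarith
  set e : E n := (16 / ‖w - a'‖) • (w - a') with he
  have hen : ‖e‖ = 16 := norm_pol hw0 (by norm_num)
  let Φ : E n → E n := fun x => (f ‖x - a'‖ / ‖x - a'‖) • (x - a') - e
  let O : Set (E n) := {x | 11 < f ‖x - a'‖ ∧ f ‖x - a'‖ < 21}
  have hO1 : ∀ x ∈ O, R + η N < ‖x - a'‖ ∧ ‖x - a'‖ < R + η 0 := fun x hx =>
    ⟨hfs _ _ (hf4.trans_lt hx.1), hfs _ _ (hx.2.trans_le hf5)⟩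
  have hO2 : ∀ x ∈ O, x - a' ≠ 0 := by
    intro x hx h
    have h2 := (hO1 x hx).1
    rw [h, norm_zero] at h2
    linarith [hp N]
  have hO3 : ∀ x ∈ O, R < ‖x - a'‖ := fun x hx => by linarith [(hO1 x hx).1, hp N]
  have hbil : ∀ x ∈ O, ∀ y ∈ O, dist (Φ x) (Φ y) ≤ (L + 42 / R + 20 + 2 * (R + 1)) * dist x y ∧
      dist x y ≤ (L + 42 / R + 20 + 2 * (R + 1)) * dist (Φ x) (Φ y) := by
    intro x hx y hy
    have eΦ : dist (Φ x) (Φ y) = ‖(f ‖x - a'‖ / ‖x - a'‖) • (x - a') -
        (f ‖y - a'‖ / ‖y - a'‖) • (y - a')‖ := by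
      rw [dist_eq_norm]
      show ‖((f ‖x - a'‖ / ‖x - a'‖) • (x - a') - e) - ((f ‖y - a'‖ / ‖y - a'‖) • (y - a') - e)‖ = _
      rw [sub_sub_sub_cancel_right]
    have hxy : dist x y = ‖(x - a') - (y - a')‖ := by
      rw [dist_eq_norm, sub_sub_sub_cancel_right]
    have hx1 := hx.1
    have hx2 := hx.2
    have hy1 := hy.1
    have hy2 := hy.2
    have hxR := hO3 x hx
    have hyR := hO3 y hy
    have hx0 := hO2 x hx
    have hy0 := hO2 y hy
    have hRd : 0 < 42 / R := by positivity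
    constructor
    · rw [eΦ, hxy]
      refine (polar hx0 hy0 _ _ (by linarith)).trans ?_
      have h2 := hf2 ‖x - a'‖ ‖y - a'‖
      have h3 : |‖x - a'‖ - ‖y - a'‖| ≤ ‖(x - a') - (y - a')‖ := abs_norm_sub_norm_le _ _
      have h4 := mul_le_mul_of_nonneg_left h3 hL0
      have h5 : f ‖y - a'‖ * (2 * ‖(x - a') - (y - a')‖ / ‖x - a'‖) ≤
          21 * (2 * ‖(x - a') - (y - a')‖ / R) := by
        refine mul_le_mul hy2.le ?_ (by positivity) (by norm_num)
        exact div_le_div_of_nonneg_left (by positivity) hR0 hxR.le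
      have h6 : 21 * (2 * ‖(x - a') - (y - a')‖ / R) = 42 / R * ‖(x - a') - (y - a')‖ := by ring
      have h7 := norm_nonneg ((x - a') - (y - a'))
      have h8 : 0 ≤ (20 + 2 * (R + 1)) * ‖(x - a') - (y - a')‖ := by positivity
      have h9 : (L + 42 / R + 20 + 2 * (R + 1)) * ‖(x - a') - (y - a')‖ =
        L * ‖(x - a') - (y - a')‖ + 42 / R * ‖(x - a') - (y - a')‖ +
          (20 + 2 * (R + 1)) * ‖(x - a') - (y - a')‖ := by ring
      rw [h9]
      linarith
    · set X := (f ‖x - a'‖ / ‖x - a'‖) • (x - a') with hX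
      set Y := (f ‖y - a'‖ / ‖y - a'‖) • (y - a') with hY
      have nX : ‖X‖ = f ‖x - a'‖ := norm_pol hx0 (by linarith)
      have nY : ‖Y‖ = f ‖y - a'‖ := norm_pol hy0 (by linarith)
      have X0 : X ≠ 0 := by
        intro h
        rw [h, norm_zero] at nX
        linarith
      have Y0 : Y ≠ 0 := by
        intro h
        rw [h, norm_zero] at nY
        linarith
      have hxp : 0 < ‖x - a'‖ := norm_pos_iff.2 hx0
      have hyp : 0 < ‖y - a'‖ := norm_pos_iff.2 hy0
      have bX : (‖x - a'‖ / ‖X‖) • X = x - a' := by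
        rw [nX, hX, smul_smul]
        have : ‖x - a'‖ / f ‖x - a'‖ * (f ‖x - a'‖ / ‖x - a'‖) = 1 := by
          have h2 : f ‖x - a'‖ ≠ 0 := by linarith
          field_simp
        rw [this, one_smul]
      have bY : (‖y - a'‖ / ‖Y‖) • Y = y - a' := by
        rw [nY, hY, smul_smul]
        have : ‖y - a'‖ / f ‖y - a'‖ * (f ‖y - a'‖ / ‖y - a'‖) = 1 := by
          have h2 : f ‖y - a'‖ ≠ 0 := by linarith
          field_simp
        rw [this, one_smul]
      rw [eΦ, hxy]
      have h2 := polar X0 Y0 ‖x - a'‖ ‖y - a'‖ hyp.le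
      rw [bX, bY] at h2
      refine h2.trans ?_
      have h3 : |‖x - a'‖ - ‖y - a'‖| ≤ 20 * |f ‖x - a'‖ - f ‖y - a'‖| := by
        rcases le_total ‖x - a'‖ ‖y - a'‖ with h | h
        · have h4 := hf1 _ _ h
          rw [abs_sub_comm, abs_of_nonneg (by linarith), abs_sub_comm, abs_of_nonneg (by linarith)]
          linarith
        · have h4 := hf1 _ _ h
          rw [abs_of_nonneg (by linarith), abs_of_nonneg (by linarith)]
          linarith
      have h4 : |f ‖x - a'‖ - f ‖y - a'‖| ≤ ‖X - Y‖ := by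
        rw [← nX, ← nY]
        exact abs_norm_sub_norm_le _ _
      have h5 : ‖y - a'‖ * (2 * ‖X - Y‖ / ‖X‖) ≤ (R + 1) * (2 * ‖X - Y‖ / 1) := by
        refine mul_le_mul (by linarith [(hO1 y hy).2]) ?_ (by positivity) (by positivity)
        exact div_le_div_of_nonneg_left (by positivity) one_pos (by rw [nX]; linarith)
      rw [div_one] at h5
      have h7 := norm_nonneg (X - Y)
      have h8 : 0 ≤ (L + 42 / R) * ‖X - Y‖ := by positivity
      have h9 : (L + 42 / R + 20 + 2 * (R + 1)) * ‖X - Y‖ =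
        (L + 42 / R) * ‖X - Y‖ + 20 * ‖X - Y‖ + (R + 1) * (2 * ‖X - Y‖) := by ring
      rw [h9]
      linarith
  have hOo : IsOpen O := by
    have h2 : Continuous (fun x : E n => f ‖x - a'‖) := by fun_prop
    exact (isOpen_lt continuous_const h2).inter (isOpen_lt h2 continuous_const)
  -- the image
  have himg : Φ '' O = {y | 11 < ‖y + e‖ ∧ ‖y + e‖ < 21} := by
    ext y
    constructor
    · rintro ⟨x, hx, rfl⟩
      have h2 : Φ x + e = (f ‖x - a'‖ / ‖x - a'‖) • (x - a') := sub_add_cancel _ _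
      have h3 : ‖Φ x + e‖ = f ‖x - a'‖ := by
        rw [h2]
        exact norm_pol (hO2 x hx) (by linarith [hx.1])
      show 11 < ‖Φ x + e‖ ∧ ‖Φ x + e‖ < 21
      rw [h3]
      exact hx
    · rintro ⟨hy1, hy2⟩
      have hle : R + η N ≤ R + η 0 := by linarith [hanti (Nat.zero_le N)]
      obtain ⟨r, hr, hfr⟩ := intermediate_value_Icc hle hfc.continuousOn
        (show ‖y + e‖ ∈ Icc (f (R + η N)) (f (R + η 0)) from ⟨by linarith, by linarith⟩)
      have hr0' : 0 < r := by linarith [hr.1, hp N]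
      have hye : y + e ≠ 0 := by
        intro h
        rw [h, norm_zero] at hy1
        linarith
      have hyp : 0 < ‖y + e‖ := norm_pos_iff.2 hye
      have h2 : ‖(a' + (r / ‖y + e‖) • (y + e)) - a'‖ = r := by
        rw [add_sub_cancel_left]
        exact norm_pol hye hr0'.le
      refine ⟨a' + (r / ‖y + e‖) • (y + e), ?_, ?_⟩
      · show 11 < f ‖(a' + (r / ‖y + e‖) • (y + e)) - a'‖ ∧
          f ‖(a' + (r / ‖y + e‖) • (y + e)) - a'‖ < 21
        rw [h2, hfr]
        exact ⟨hy1, hy2⟩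
      · show (f ‖(a' + (r / ‖y + e‖) • (y + e)) - a'‖ / ‖(a' + (r / ‖y + e‖) • (y + e)) - a'‖) •
          ((a' + (r / ‖y + e‖) • (y + e)) - a') - e = y
        rw [h2, hfr, add_sub_cancel_left, smul_smul]
        have : ‖y + e‖ / r * (r / ‖y + e‖) = 1 := by field_simp
        rw [this, one_smul, add_sub_cancel_right]
  have hwf : f ‖w - a'‖ = 16 := by
    rw [← dist_eq_norm]
    exact hf3
  refine ⟨w, O, Φ, L + 42 / R + 20 + 2 * (R + 1), hw', ?_, ?_, hOo, ?_, hbil, ?_, ?_, ?_⟩
  · show 11 < f ‖w - a'‖ ∧ f ‖w - a'‖ < 21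
    rw [hwf]
    norm_num
  · intro x hx
    refine hin x ?_
    rw [dist_eq_norm]
    linarith [(hO1 x hx).2]
  · rw [himg]
    have h2 : Continuous (fun y : E n => ‖y + e‖) := by fun_prop
    exact (isOpen_lt continuous_const h2).inter (isOpen_lt h2 continuous_const)
  · show (f ‖w - a'‖ / ‖w - a'‖) • (w - a') - e = 0
    rw [hwf, he, sub_self]
  · rw [himg]
    intro y hy
    have h2 : ‖y‖ ≤ 4 := mem_closedBall_zero_iff.1 hy
    have h3 := norm_add_le y e
    have h4 : ‖e‖ ≤ ‖y + e‖ + ‖y‖ := by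
      calc ‖e‖ = ‖(y + e) - y‖ := by rw [add_sub_cancel_left]
        _ ≤ _ := norm_sub_le _ _
    constructor <;> linarith
  · intro x hx hΦ k
    have h2 : ‖Φ x‖ ≤ 4 := mem_closedBall_zero_iff.1 hΦ
    have hx0 := hO2 x hx
    have h3 : Φ x + e = (f ‖x - a'‖ / ‖x - a'‖) • (x - a') := sub_add_cancel _ _
    have h4 : ‖Φ x + e‖ = f ‖x - a'‖ := by
      rw [h3]
      exact norm_pol hx0 (by linarith [hx.1])
    have h5 : f ‖x - a'‖ ≤ 20 := by
      rw [← h4]
      have := norm_add_le (Φ x) e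
      linarith
    have h6 : 12 ≤ f ‖x - a'‖ := by
      rw [← h4]
      have : ‖e‖ ≤ ‖Φ x + e‖ + ‖Φ x‖ := by
        calc ‖e‖ = ‖(Φ x + e) - Φ x‖ := by rw [add_sub_cancel_left]
          _ ≤ _ := norm_sub_le _ _
      linarith
    have hxd : dist x a' ≤ R + η 0 := by
      rw [dist_eq_norm]
      exact (hO1 x hx).2.le
    have h7 := hdisp x hxd k
    set y := T k x with hy
    have hxz : x ∈ closedBall z ρ := hin' x (by linarith)
    have hyz : y ∈ closedBall z ρ := hin' y (by
      have := dist_triangle y x a'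
      linarith)
    have hback : T k⁻¹ y = x := by
      rw [hy, ← hm k⁻¹ k x hxz hyz, inv_mul_cancel, h1 x hxz]
    have h8 : |‖y - a'‖ - ‖x - a'‖| ≤ ε0 := by
      refine (abs_norm_sub_norm_le _ _).trans ?_
      rw [sub_sub_sub_cancel_right, ← dist_eq_norm]
      exact h7
    have h9 := hf6 ‖x - a'‖ ‖y - a'‖ (fun i hi => by
      rw [← dist_eq_norm] at hi ⊢
      exact hstep (i + 1) x hi k)
    have h10 := hf6 ‖y - a'‖ ‖x - a'‖ (fun i hi => by
      rw [← dist_eq_norm] at hi ⊢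
      have := hstep (i + 1) y hi k⁻¹
      rwa [hback] at this)
    rw [abs_sub_comm] at h10
    have h11 : |f ‖y - a'‖ - f ‖x - a'‖| ≤ 3 / 20 := by
      rw [abs_le]
      constructor <;> linarith
    obtain ⟨h12, h13⟩ := abs_le.1 h11
    have hyO : y ∈ O := ⟨by linarith, by linarith⟩
    refine ⟨hyO, ?_⟩
    have eΦ : dist (Φ y) (Φ x) = ‖(f ‖y - a'‖ / ‖y - a'‖) • (y - a') -
        (f ‖x - a'‖ / ‖x - a'‖) • (x - a')‖ := by
      rw [dist_eq_norm]
      show ‖((f ‖y - a'‖ / ‖y - a'‖) • (y - a') - e) - ((f ‖x - a'‖ / ‖x - a'‖) • (x - a') - e)‖ = _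
      rw [sub_sub_sub_cancel_right]
    rw [eΦ]
    refine (polar (hO2 y hyO) hx0 _ _ (by linarith)).trans ?_
    have h14 : 2 * ‖(y - a') - (x - a')‖ / ‖y - a'‖ ≤ 2 * (R / 1000) / R := by
      rw [sub_sub_sub_cancel_right, ← dist_eq_norm]
      exact div_le_div₀ (by positivity) (by linarith) hR0 (hO3 y hyO).le
    have h15 : 2 * (R / 1000) / R = 1 / 500 := by
      field_simp
      norm_num
    rw [h15] at h14
    have h16 : f ‖x - a'‖ * (2 * ‖(y - a') - (x - a')‖ / ‖y - a'‖) ≤ 20 * (1 / 500) :=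
      mul_le_mul h5 h14 (by positivity) (by norm_num)
    linarith

end Pool.Agent.Y665.HS
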